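import Mathlib
import Pool.Prelude.Def_F_7905cbea
import Pool.Agent.Work.MP_073f2d_co.Few6
import Pool.Agent.Work.MP_073f2d_co.Ad.Fin

/-!
# The linear covering density of Hamming balls is bounded

For every radius `r ≥ 1` there are infinitely many `n` and, for each of them, a linear subspace
`V` of `𝔽₂ⁿ` with `V + H_n(r) = 𝔽₂ⁿ` and `|V| |H_n(r)| ≤ 300 · 2ⁿ`. So `f(r) ≤ 300` for every
`r ≥ 1`, and `f(r)` does not tend to infinity.
-/

set_option autoImplicit false

namespace Pool.Agent.Results.MP_073f2d_co.BoundedLinearDensity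

open Filter Topology
open scoped ENNReal Pointwise

/-- The Hamming ball `H_n(r) = {x ∈ 𝔽₂ⁿ : wt(x) ≤ r}`; `hammingNorm x` is the number of the
nonzero coordinates of `x`. -/
def ball (n r : ℕ) : Set (Fin n → ZMod 2) := {x | hammingNorm x ≤ r}

/-- The linear subspace `V ≤ 𝔽₂ⁿ` is a covering subspace for radius `r`:
`V + H_n(r) = 𝔽₂ⁿ`. -/
def IsCovering (n r : ℕ) (V : Submodule (ZMod 2) (Fin n → ZMod 2)) : Prop :=
  (V : Set (Fin n → ZMod 2)) + ball n r = Set.univ

/-- The density `|V| |H_n(r)| / 2ⁿ` of the subspace `V ≤ 𝔽₂ⁿ`. -/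
noncomputable def density (n r : ℕ) (V : Submodule (ZMod 2) (Fin n → ZMod 2)) : ℝ :=
  (Nat.card V : ℝ) * (Nat.card (ball n r) : ℝ) / 2 ^ n

/-- `m_n(r)`, the least density of a covering subspace for radius `r`. (There are finitely many
subspaces and the whole space is a covering subspace, so the infimum is a minimum; see
`m_isLeast`.) -/
noncomputable def m (n r : ℕ) : ℝ :=
  sInf {d : ℝ | ∃ V : Submodule (ZMod 2) (Fin n → ZMod 2), IsCovering n r V ∧ density n r V = d}

/-- `f(r)`, the limit inferior of `m_n(r)` for `n → ∞`, an element of `[0, ∞]`. -/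
noncomputable def f (r : ℕ) : ℝ≥0∞ := liminf (fun n => ENNReal.ofReal (m n r)) atTop

lemma isCovering_top (n r : ℕ) : IsCovering n r ⊤ := by
  unfold IsCovering
  rw [Set.eq_univ_iff_forall]
  intro x
  rw [Set.mem_add]
  refine ⟨x, trivial, 0, ?_, add_zero x⟩
  show hammingNorm (0 : Fin n → ZMod 2) ≤ r
  simp

lemma density_nonneg (n r : ℕ) (V : Submodule (ZMod 2) (Fin n → ZMod 2)) :
    0 ≤ density n r V := by
  unfold density
  positivity

lemma finite_densities (n r : ℕ) : {d : ℝ | ∃ V : Submodule (ZMod 2) (Fin n → ZMod 2),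
    IsCovering n r V ∧ density n r V = d}.Finite := by
  refine (Set.finite_range (fun V : Submodule (ZMod 2) (Fin n → ZMod 2) => density n r V)).subset ?_
  rintro d ⟨V, _, rfl⟩
  exact ⟨V, rfl⟩

/-- `m_n(r)` is the minimum of the densities of the covering subspaces. -/
lemma m_isLeast (n r : ℕ) : IsLeast {d : ℝ | ∃ V : Submodule (ZMod 2) (Fin n → ZMod 2),
    IsCovering n r V ∧ density n r V = d} (m n r) := by
  have hne : {d : ℝ | ∃ V : Submodule (ZMod 2) (Fin n → ZMod 2),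
      IsCovering n r V ∧ density n r V = d}.Nonempty := ⟨_, ⊤, isCovering_top n r, rfl⟩
  exact ⟨hne.csInf_mem (finite_densities n r), fun d hd => csInf_le (finite_densities n r).bddBelow hd⟩

lemma ofReal_density (n r : ℕ) (V : Submodule (ZMod 2) (Fin n → ZMod 2)) :
    ENNReal.ofReal (density n r V) =
      (Nat.card V : ℝ≥0∞) * (Nat.card (N8b55e67f.hammingBall n r) : ℝ≥0∞) / (2 ^ n : ℝ≥0∞) := by
  unfold density
  rw [ENNReal.ofReal_div_of_pos (by positivity), ENNReal.ofReal_mul (by positivity),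
    ENNReal.ofReal_natCast, ENNReal.ofReal_natCast, ENNReal.ofReal_pow (by norm_num)]
  norm_num
  rfl

/-- The infimum over the covering subspaces in `[0, ∞]` is the real minimum. -/
lemma minDensity_eq (n r : ℕ) : N8b55e67f.minDensity n r = ENNReal.ofReal (m n r) := by
  obtain ⟨V, hV, hVm⟩ := (m_isLeast n r).1
  apply le_antisymm
  · refine (iInf₂_le V hV).trans ?_
    rw [← hVm, ofReal_density]
  · refine le_iInf₂ fun W hW => ?_
    rw [← ofReal_density]
    exact ENNReal.ofReal_le_ofReal ((m_isLeast n r).2 ⟨W, hW, rfl⟩)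

/-- The case `r = 1` (Hamming codes). -/
lemma one_case (N : ℕ) : ∃ n, N ≤ n ∧ N8b55e67f.minDensity n 1 ≤ 300 := by
  refine ⟨1 * (2 ^ N - 1), ?_, ?_⟩
  · have := Nat.lt_two_pow_self (n := N)
    omega
  · have h1 : N8b55e67f.minDensity (1 * (2 ^ N - 1)) 1 ≤
        Pool.Agent.MP073f2d.Few.minDensityFew (1 * (2 ^ N - 1)) 1 := by
      refine le_iInf₂ fun V hV => ?_
      exact iInf₂_le V (Pool.Agent.MP073f2d.Few.covering_of_few hV)
    refine h1.trans ((Pool.Agent.MP073f2d.Few.minDensityFew_ham 1 N).trans ?_)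
    norm_num

/-- The case `r ≥ 2`. -/
lemma ge_two_case (k : ℕ) (hk : 1 ≤ k) (N : ℕ) :
    ∃ n, N ≤ n ∧ N8b55e67f.minDensity n (k + 1) ≤ 300 := by
  classical
  obtain ⟨m, a, M, hm, ha, h3, s, σ, hcard, hsum, hdisj⟩ := Pool.Agent.MP073f2d.Ad.start k hk
  set c0 : ℕ := ((2 ^ a) ^ k * (2 ^ m * 2) * (2 ^ a) ^ k) * ((2 ^ a + M) * 3) + (2 ^ a + M) +
    (k + 1) * (k + 1) + N + 1 with hc0
  have : NeZero c0 := ⟨Nat.succ_ne_zero _⟩
  have : Fintype (FiniteField.Extension (GaloisField 2 m) 2 c0) := Fintype.ofFinite _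
  have hK : Fintype.card (FiniteField.Extension (GaloisField 2 m) 2 c0) = (2 ^ m) ^ c0 := by
    rw [← Nat.card_eq_fintype_card, FiniteField.natCard_extension, GaloisField.card 2 m hm]
  have hc0K : c0 < Fintype.card (FiniteField.Extension (GaloisField 2 m) 2 c0) := by
    rw [hK]
    calc c0 < 2 ^ c0 := Nat.lt_two_pow_self
      _ ≤ (2 ^ m) ^ c0 := Nat.pow_le_pow_left (by
          calc 2 = 2 ^ 1 := rfl
            _ ≤ 2 ^ m := Nat.pow_le_pow_right (by norm_num) (by omega)) _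
  exact Pool.Agent.MP073f2d.Ad.fin_aux k m a M N hm ha h3 s σ hcard hsum hdisj
    (FiniteField.Extension (GaloisField 2 m) 2 c0) hc0K

lemma m_le (r : ℕ) (hr : 1 ≤ r) (N : ℕ) : ∃ n, N ≤ n ∧ m n r ≤ 300 := by
  have h : ∃ n, N ≤ n ∧ N8b55e67f.minDensity n r ≤ 300 := by
    rcases Nat.lt_or_ge r 2 with h | h
    · obtain rfl : r = 1 := by omega
      exact one_case N
    · obtain ⟨k, rfl⟩ : ∃ k, r = k + 1 := ⟨r - 1, by omega⟩
      exact ge_two_case k (by omega) N
  obtain ⟨n, hn, h⟩ := h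
  refine ⟨n, hn, ?_⟩
  rw [minDensity_eq, ENNReal.ofReal_le_iff_le_toReal (by simp)] at h
  simpa using h

/-- **The linear covering density is bounded.** For every `r ≥ 1`:
(1) for infinitely many `n` there is a covering subspace `V` of `𝔽₂ⁿ` for radius `r` with
`|V| |H_n(r)| / 2ⁿ ≤ 300`; (2) `f(r) ≤ 300`. So `f(r)` does not tend to `∞` for `r → ∞`: the
answer to Q1 is no, and its negated form `liminf f(r) < ∞` holds. -/
theorem result :
    (∀ r : ℕ, 1 ≤ r → ∀ N : ℕ, ∃ n : ℕ, N ≤ n ∧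
      ∃ V : Submodule (ZMod 2) (Fin n → ZMod 2), IsCovering n r V ∧ density n r V ≤ 300) ∧
    (∀ r : ℕ, 1 ≤ r → f r ≤ 300) ∧
    ¬ Tendsto f atTop (𝓝 ⊤) ∧ liminf f atTop < ⊤ := by
  have hf : ∀ r : ℕ, 1 ≤ r → f r ≤ 300 := by
    intro r hr
    unfold f
    apply Filter.liminf_le_of_frequently_le'
    rw [Filter.frequently_atTop]
    intro N
    obtain ⟨n, hn, h⟩ := m_le r hr N
    refine ⟨n, hn, (ENNReal.ofReal_le_ofReal h).trans ?_⟩
    simp
  have hev : ∀ᶠ r in atTop, f r ≤ 300 := by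
    filter_upwards [eventually_ge_atTop 1] with r hr
    exact hf r hr
  have hsup : limsup f atTop ≤ 300 := limsup_le_of_le (by isBoundedDefault) hev
  have hinf : liminf f atTop ≤ 300 := (liminf_le_limsup (by isBoundedDefault)
    (by isBoundedDefault)).trans hsup
  refine ⟨?_, hf, ?_, lt_of_le_of_lt hinf (by simp)⟩
  · intro r hr N
    obtain ⟨n, hn, h⟩ := m_le r hr N
    obtain ⟨V, hV, hVm⟩ := (m_isLeast n r).1
    exact ⟨n, hn, V, hV, by rw [hVm]; exact h⟩
  · intro h
    have := h.liminf_eq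
    rw [this] at hinf
    simp at hinf

end Pool.Agent.Results.MP_073f2d_co.BoundedLinearDensity
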