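import Mathlib
import Pool.Prelude.Def_F_7905cbea
import Pool.Agent.Work.MP_073f2d_co.Few6

/-!
# Linear codes with at most `r` dual weights: exponentially large covering density

Delsarte's theorem says that a linear code whose dual has at most `r` distinct nonzero weights has
covering radius at most `r`. For the codes whose radius is certified in this way (they include the
perfect codes, the direct sums of Hamming codes, the uniformly packed codes in the wide sense and
the completely regular codes) the optimal asymptotic covering density lies between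
`exp ((r - 1) / 50)` and `r ^ r / r!`.
-/

set_option autoImplicit false

namespace Pool.Agent.Results.MP_073f2d_co.FewDualWeights

open N8b55e67f Filter Topology
open scoped ENNReal

open Classical in
/-- The set of the Hamming weights of the nonzero vectors of the dual code of `V`. -/
noncomputable def dualWeights {n : ℕ} (V : Submodule (ZMod 2) (𝔽₂ n)) : Finset ℕ :=
  (Finset.univ.filter (fun u : 𝔽₂ n => u ≠ 0 ∧ ∀ v ∈ V, ∑ i, u i * v i = 0)).image
    (fun u => hammingNorm u)

/-- The least density `|V| |H(r)| / 2^n` of a subspace `V` of `𝔽₂ n` whose dual code has at most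
`r` distinct nonzero weights. -/
noncomputable def minDensityFew (n r : ℕ) : ℝ≥0∞ :=
  ⨅ (V : Submodule (ZMod 2) (𝔽₂ n)) (_ : (dualWeights V).card ≤ r),
    (Nat.card V : ℝ≥0∞) * (Nat.card (hammingBall n r) : ℝ≥0∞) / (2 ^ n : ℝ≥0∞)

/-- The analogue of `f` for this class of codes. -/
noncomputable def fFew (r : ℕ) : ℝ≥0∞ := liminf (fun n => minDensityFew n r) atTop

lemma dualWeights_eq {n : ℕ} (V : Submodule (ZMod 2) (𝔽₂ n)) :
    dualWeights V = Pool.Agent.MP073f2d.Few.dualWts V := by
  classical
  unfold dualWeights Pool.Agent.MP073f2d.Few.dualWts Pool.Agent.MP073f2d.Few.dualF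
  congr 1
  ext u
  simp only [Finset.mem_filter, Finset.mem_univ, true_and, Pool.Agent.MP073f2d.Few.mem_dual]
  exact and_comm

lemma fFew_eq (r : ℕ) : fFew r = Pool.Agent.MP073f2d.Few.fFew r := by
  unfold fFew Pool.Agent.MP073f2d.Few.fFew minDensityFew Pool.Agent.MP073f2d.Few.minDensityFew
  simp only [dualWeights_eq]

/-- Codes whose dual has at most `r` nonzero weights cover with radius `r` (Delsarte), and their
optimal asymptotic density is between `exp ((r - 1) / 50)` and `r ^ r / r!`; it tends to infinity. -/
theorem result :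
    (∀ (n r : ℕ) (V : Submodule (ZMod 2) (𝔽₂ n)), (dualWeights V).card ≤ r →
      IsCoveringSubspace n r V) ∧
    (∀ r : ℕ, 1 ≤ r → ENNReal.ofReal (Real.exp (((r : ℝ) - 1) / 50)) ≤ fFew r ∧
      fFew r ≤ ENNReal.ofReal ((r : ℝ) ^ r / r.factorial)) ∧
    Tendsto fFew atTop (𝓝 ⊤) := by
  have hlow : ∀ r : ℕ, 1 ≤ r → ENNReal.ofReal (Real.exp (((r : ℝ) - 1) / 50)) ≤ fFew r := by
    intro r hr
    rw [fFew_eq]
    exact Pool.Agent.MP073f2d.Few.lower_bound r hr
  refine ⟨?_, ?_, ?_⟩
  · intro n r V hV
    rw [dualWeights_eq] at hV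
    exact Pool.Agent.MP073f2d.Few.covering_of_few hV
  · intro r hr
    refine ⟨hlow r hr, ?_⟩
    rw [fFew_eq]
    exact Pool.Agent.MP073f2d.Few.upper_bound r hr
  · have h1 : Tendsto (fun r : ℕ => Real.exp (((r : ℝ) - 1) / 50)) atTop atTop := by
      apply Real.tendsto_exp_atTop.comp
      apply Tendsto.atTop_div_const (by norm_num)
      exact tendsto_atTop_add_const_right _ (-1) tendsto_natCast_atTop_atTop
    have h2 : Tendsto (fun r : ℕ => ENNReal.ofReal (Real.exp (((r : ℝ) - 1) / 50))) atTop
        (𝓝 ⊤) := ENNReal.tendsto_ofReal_atTop.comp h1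
    apply tendsto_nhds_top_mono h2
    filter_upwards [eventually_ge_atTop 1] with r hr
    exact hlow r hr

end Pool.Agent.Results.MP_073f2d_co.FewDualWeights
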