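import Mathlib
import Pool.Prelude.Def_F_7905cbea
import Pool.Agent.Work.MP_073f2d_co.Asymp

/-!
# Linear covering density: `f(r) ≤ r log r + r log log r + 7 r`

A random-like linear start code of length about `r^2 log r` is blown up with a Vandermonde
construction over a large field of characteristic two.
-/

set_option autoImplicit false

namespace Pool.Agent.Results.MP_073f2d_co.LinearCoveringDensity

open N8b55e67f Filter Pool.Agent.MP073f2d
open scoped ENNReal

lemma exp_four_fifths : Real.exp (4 / 5) < 2.2256 := by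
  by_contra h
  push Not at h
  have h1 : (2.2256 : ℝ) ^ 5 ≤ Real.exp (4 / 5) ^ 5 := pow_le_pow_left₀ (by norm_num) h 5
  have h2 : Real.exp (4 / 5) ^ 5 = Real.exp 1 ^ 4 := by
    rw [← Real.exp_nat_mul, ← Real.exp_nat_mul]; norm_num
  have h3 : Real.exp 1 ^ 4 ≤ (2.7182818286 : ℝ) ^ 4 :=
    pow_le_pow_left₀ (Real.exp_pos _).le Real.exp_one_lt_d9.le 4
  rw [h2] at h1
  have := h1.trans h3
  norm_num at this

lemma exp_chord (x : ℝ) (h0 : 0 ≤ x) (h1 : x ≤ 4 / 5) : Real.exp x ≤ 1 + 1.532 * x := by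
  have ha : 0 ≤ 1 - x / (4 / 5) := by linarith
  have hb : 0 ≤ x / (4 / 5) := by positivity
  have hc := convexOn_exp.2 (Set.mem_univ (0 : ℝ)) (Set.mem_univ (4 / 5 : ℝ)) ha hb (by ring)
  have h2 : (1 - x / (4 / 5)) • (0 : ℝ) + (x / (4 / 5)) • (4 / 5 : ℝ) = x := by
    simp only [smul_eq_mul]; ring
  rw [h2] at hc
  simp only [smul_eq_mul, Real.exp_zero, mul_one] at hc
  have h3 := exp_four_fifths
  nlinarith

lemma log_three_le : Real.log 3 ≤ 1.1 := by
  have h1 : (3 : ℝ) ^ 10 ≤ Real.exp 1 ^ 11 := by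
    have h2 : (2.7182818283 : ℝ) ^ 11 ≤ Real.exp 1 ^ 11 :=
      pow_le_pow_left₀ (by norm_num) Real.exp_one_gt_d9.le 11
    refine le_trans ?_ h2
    norm_num
  have h3 := Real.log_le_log (by positivity) h1
  rw [Real.log_pow, Real.log_pow, Real.log_exp] at h3
  norm_num at h3
  linarith

/-- The common real estimate. -/
lemma real_estimate (r : ℕ) (hr : 3 ≤ r) :
    ∃ N₀ : ℕ, r < N₀ ∧
      (r * (1 + Real.log ((N₀ : ℝ) / r)) + Real.log 2) *
        Real.exp ((r : ℝ) * (r + 1) / (N₀ + 1 - r))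
        ≤ r * Real.log r + r * Real.log (Real.log r) + 7 * r ∧
      2 * (r * (1 + Real.log (2 * (N₀ : ℝ) / r)) + Real.log 2) *
        Real.exp ((r : ℝ) * (r + 1) / (N₀ + 1 - r))
        ≤ 2 * (r * Real.log r + r * Real.log (Real.log r) + 8 * r) := by
  have hr3 : (3 : ℝ) ≤ r := by exact_mod_cast hr
  have hr0 : (0 : ℝ) < r := by linarith
  set l := Real.log r with hl
  have hl1 : 1 ≤ l := by
    rw [hl, Real.le_log_iff_exp_le hr0]
    have := Real.exp_one_lt_d9
    linarith
  set L : ℕ := ⌈l⌉₊ + 1 with hL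
  have hL1 : l + 1 ≤ L := by
    rw [hL]; push_cast
    linarith [Nat.le_ceil l]
  have hL2 : (L : ℝ) ≤ 3 * l := by
    rw [hL]; push_cast
    have := Nat.ceil_lt_add_one (by linarith : 0 ≤ l)
    linarith
  have hL0 : (0 : ℝ) < L := by linarith
  have hl2u := Real.log_two_lt_d9
  have hl2l := Real.log_two_gt_d9
  refine ⟨L * r ^ 2, ?_, ?_⟩
  · have h1 : 2 ≤ L := by
      have : (2 : ℝ) ≤ L := by linarith
      exact_mod_cast this
    nlinarith
  have hN : ((L * r ^ 2 : ℕ) : ℝ) = L * r ^ 2 := by push_cast; ring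
  rw [hN]
  set x := (r : ℝ) * (r + 1) / (L * r ^ 2 + 1 - r) with hx
  have hden : (l + 2 / 3) * (r : ℝ) ^ 2 ≤ L * r ^ 2 + 1 - r := by
    have h1 : (l + 1) * (r : ℝ) ^ 2 ≤ L * r ^ 2 := mul_le_mul_of_nonneg_right hL1 (by positivity)
    have h2 : (r : ℝ) ≤ 1 / 3 * (r : ℝ) ^ 2 := by nlinarith
    nlinarith
  have hdenpos : (0 : ℝ) < L * r ^ 2 + 1 - r := lt_of_lt_of_le (by positivity) hden
  have hx0 : 0 ≤ x := by rw [hx]; positivity
  have hxl : x * (l + 2 / 3) ≤ 4 / 3 := by
    rw [hx, div_mul_eq_mul_div, div_le_iff₀ hdenpos]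
    have h2 : (r : ℝ) * (r + 1) ≤ 4 / 3 * (r : ℝ) ^ 2 := by nlinarith
    calc (r : ℝ) * (r + 1) * (l + 2 / 3) ≤ (4 / 3 * (r : ℝ) ^ 2) * (l + 2 / 3) :=
          mul_le_mul_of_nonneg_right h2 (by linarith)
      _ = 4 / 3 * ((l + 2 / 3) * (r : ℝ) ^ 2) := by ring
      _ ≤ 4 / 3 * (L * r ^ 2 + 1 - r) := by linarith
  have hx1 : x ≤ 4 / 5 := by nlinarith
  have hexp := exp_chord x hx0 hx1
  have hexp0 : 0 < Real.exp x := Real.exp_pos _
  have hlogL : Real.log L ≤ 1.1 + Real.log l := by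
    calc Real.log L ≤ Real.log (3 * l) := Real.log_le_log hL0 hL2
      _ = Real.log 3 + Real.log l := Real.log_mul (by norm_num) (by linarith)
      _ ≤ _ := by linarith [log_three_le]
  have hlogl : Real.log l ≤ l - 1 := Real.log_le_sub_one_of_pos (by linarith)
  have hlogl0 : 0 ≤ Real.log l := Real.log_nonneg hl1
  have hlogN : Real.log ((L : ℝ) * r ^ 2 / r) = Real.log L + l := by
    rw [show (L : ℝ) * r ^ 2 / r = L * r by field_simp, Real.log_mul hL0.ne' hr0.ne']
  have hlogN2 : Real.log (2 * ((L : ℝ) * r ^ 2) / r) = Real.log 2 + (Real.log L + l) := by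
    rw [show 2 * ((L : ℝ) * r ^ 2) / r = 2 * (L * r) by field_simp,
      Real.log_mul (by norm_num) (by positivity), Real.log_mul hL0.ne' hr0.ne']
  rw [hlogN, hlogN2]
  set lL := Real.log L with hlL
  set ll := Real.log l with hll
  have hL1' : 1 ≤ (L : ℝ) := by linarith
  have hlL0 : 0 ≤ lL := Real.log_nonneg hL1'
  -- A := r (1 + lL + l) + log 2 ≤ r (l + lL + 1.2311)
  have hA : (r : ℝ) * (1 + (lL + l)) + Real.log 2 ≤ r * (l + lL + 1.2311) := by nlinarith
  have hA0 : 0 ≤ (r : ℝ) * (1 + (lL + l)) + Real.log 2 := by positivity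
  have hxx : x * (l + lL + 1.2311) ≤ 8 / 3 := by
    have h1 : x * (lL + (1.2311 - 2 / 3)) ≤ x * (l + 2 / 3) := by
      apply mul_le_mul_of_nonneg_left _ hx0
      linarith
    nlinarith
  have hmain : ((r : ℝ) * (1 + (lL + l)) + Real.log 2) * Real.exp x ≤
      r * l + r * ll + 6.4165 * r := by
    calc ((r : ℝ) * (1 + (lL + l)) + Real.log 2) * Real.exp x
        ≤ (r * (l + lL + 1.2311)) * (1 + 1.532 * x) :=
          mul_le_mul hA hexp hexp0.le (by positivity)
      _ = r * (l + lL + 1.2311) + 1.532 * r * (x * (l + lL + 1.2311)) := by ring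
      _ ≤ r * (l + lL + 1.2311) + 1.532 * r * (8 / 3) := by
          have : 1.532 * (r : ℝ) * (x * (l + lL + 1.2311)) ≤ 1.532 * r * (8 / 3) :=
            mul_le_mul_of_nonneg_left hxx (by positivity)
          linarith
      _ ≤ _ := by nlinarith
  constructor
  · linarith
  · have h3 : Real.exp x ≤ 2.2256 := by linarith
    have h4 : (r : ℝ) * Real.log 2 * Real.exp x ≤ r * 1.5427 := by
      have h5 : Real.log 2 * Real.exp x ≤ 1.5427 := by
        calc Real.log 2 * Real.exp x ≤ 0.6931471808 * 2.2256 :=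
              mul_le_mul hl2u.le h3 hexp0.le (by norm_num)
          _ ≤ 1.5427 := by norm_num
      calc (r : ℝ) * Real.log 2 * Real.exp x = r * (Real.log 2 * Real.exp x) := by ring
        _ ≤ r * 1.5427 := mul_le_mul_of_nonneg_left h5 hr0.le
    calc 2 * ((r : ℝ) * (1 + (Real.log 2 + (lL + l))) + Real.log 2) * Real.exp x
        = 2 * ((((r : ℝ) * (1 + (lL + l)) + Real.log 2) * Real.exp x) +
            (r : ℝ) * Real.log 2 * Real.exp x) := by ring
      _ ≤ 2 * ((r * l + r * ll + 6.4165 * r) + r * 1.5427) := by linarith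
      _ ≤ _ := by nlinarith

/-- For every `r ≥ 3`, the least asymptotic density of linear coverings of radius `r` is at most
`r log r + r log log r + 7 r`, and for all large `n` the density is at most about twice that. -/
theorem result (r : ℕ) (hr : 3 ≤ r) :
    f r ≤ ENNReal.ofReal (r * Real.log r + r * Real.log (Real.log r) + 7 * r) ∧
    f_all r ≤ ENNReal.ofReal (2 * (r * Real.log r + r * Real.log (Real.log r) + 8 * r)) := by
  obtain ⟨N₀, hN, h1, h2⟩ := real_estimate r hr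
  exact ⟨(f_le r N₀ (by omega) hN).trans (ENNReal.ofReal_le_ofReal h1),
    (f_all_le r N₀ (by omega) hN).trans (ENNReal.ofReal_le_ofReal h2)⟩

end Pool.Agent.Results.MP_073f2d_co.LinearCoveringDensity
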